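import Mathlib

/-!
# A family of linear forms in five logarithms of rational numbers

`F t = ∑ b_j(t) log ((t + u_j) / (t - u_j))` with `b_j` quadratic in `t` for two of the `u_j` and constant
for the other three; `F t` is about `c / t ^ 13`.
-/

set_option autoImplicit false

open Finset

namespace Pool.Agent.Y823.LR

/-- Truncated odd series. -/
theorem odd13 (x : ℝ) (h0 : 0 < x) (h1 : x ≤ 1/2) :
    |Real.log (1+x) - Real.log (1-x) - 2 * (x + x^3/3 + x^5/5 + x^7/7 + x^9/9 + x^11/11 + x^13/13)| ≤ 4 * x^15 := by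
  have hx1 : |x| < 1 := by rw [abs_of_pos h0]; linarith
  have hx2 : |(-x)| < 1 := by rw [abs_neg]; exact hx1
  have e1 := Real.abs_log_sub_add_sum_range_le hx1 14
  have e2 := Real.abs_log_sub_add_sum_range_le hx2 14
  rw [abs_neg] at e2
  rw [abs_of_pos h0] at e1 e2
  have e3 : x ^ (14+1) / (1 - x) ≤ 2 * x^15 := by
    rw [div_le_iff₀ (by linarith)]
    have h3 : 0 < x^15 := by positivity
    have h4 : x ^ (14+1) = x^15 := by norm_num
    rw [h4]
    nlinarith [mul_nonneg h3.le (by linarith : (0:ℝ) ≤ 1/2 - x)]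
  simp only [Finset.sum_range_succ, Finset.sum_range_zero] at e1 e2
  rw [sub_neg_eq_add] at e2
  rw [abs_le] at e1 e2 ⊢
  push_cast at e1 e2
  norm_num at e1 e2
  norm_num at e3
  constructor
  · linarith [e1.1, e1.2, e2.1, e2.2]
  · linarith [e1.1, e1.2, e2.1, e2.2]

/-- Truncated odd series. -/
theorem odd15 (x : ℝ) (h0 : 0 < x) (h1 : x ≤ 1/2) :
    |Real.log (1+x) - Real.log (1-x) - 2 * (x + x^3/3 + x^5/5 + x^7/7 + x^9/9 + x^11/11 + x^13/13 + x^15/15)| ≤ 4 * x^17 := by
  have hx1 : |x| < 1 := by rw [abs_of_pos h0]; linarith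
  have hx2 : |(-x)| < 1 := by rw [abs_neg]; exact hx1
  have e1 := Real.abs_log_sub_add_sum_range_le hx1 16
  have e2 := Real.abs_log_sub_add_sum_range_le hx2 16
  rw [abs_neg] at e2
  rw [abs_of_pos h0] at e1 e2
  have e3 : x ^ (16+1) / (1 - x) ≤ 2 * x^17 := by
    rw [div_le_iff₀ (by linarith)]
    have h3 : 0 < x^17 := by positivity
    have h4 : x ^ (16+1) = x^17 := by norm_num
    rw [h4]
    nlinarith [mul_nonneg h3.le (by linarith : (0:ℝ) ≤ 1/2 - x)]
  simp only [Finset.sum_range_succ, Finset.sum_range_zero] at e1 e2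
  rw [sub_neg_eq_add] at e2
  rw [abs_le] at e1 e2 ⊢
  push_cast at e1 e2
  norm_num at e1 e2
  norm_num at e3
  constructor
  · linarith [e1.1, e1.2, e2.1, e2.2]
  · linarith [e1.1, e1.2, e2.1, e2.2]

theorem main_identity (t : ℝ) (ht : t ≠ 0) :
    (68493261107293074262987920) * t^2 * (2 * (23940/t + (23940/t)^3/3 + (23940/t)^5/5 + (23940/t)^7/7 + (23940/t)^9/9 + (23940/t)^11/11 + (23940/t)^13/13 + (23940/t)^15/15))
    + (-205479783321879222788963760) * t^2 * (2 * (7980/t + (7980/t)^3/3 + (7980/t)^5/5 + (7980/t)^7/7 + (7980/t)^9/9 + (7980/t)^11/11 + (7980/t)^13/13 + (7980/t)^15/15))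
    + (-36792507533893875749415156610206015) * (2 * (23940/t + (23940/t)^3/3 + (23940/t)^5/5 + (23940/t)^7/7 + (23940/t)^9/9 + (23940/t)^11/11 + (23940/t)^13/13))
    + (6048772365182827717172293437880000) * (2 * (7980/t + (7980/t)^3/3 + (7980/t)^5/5 + (7980/t)^7/7 + (7980/t)^9/9 + (7980/t)^11/11 + (7980/t)^13/13))
    + (15652472853992248740061273193359375) * (2 * (13188/t + (13188/t)^3/3 + (13188/t)^5/5 + (13188/t)^7/7 + (13188/t)^9/9 + (13188/t)^11/11 + (13188/t)^13/13))
    + (8768614531902043289422912869629952) * (2 * (19285/t + (19285/t)^3/3 + (19285/t)^5/5 + (19285/t)^7/7 + (19285/t)^9/9 + (19285/t)^11/11 + (19285/t)^13/13))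
    + (8244060167494876309156455493563408) * (2 * (21660/t + (21660/t)^3/3 + (21660/t)^5/5 + (21660/t)^7/7 + (21660/t)^9/9 + (21660/t)^11/11 + (21660/t)^13/13)) =
    924831795166388571947806869404023802224923579207889998153764118706991923200000000000000 / t^13 := by
  field_simp
  ring

/-- The value of the linear form at a real number `t`. -/
noncomputable def F (t : ℝ) : ℝ :=
  ((68493261107293074262987920) * t^2 + (-36792507533893875749415156610206015)) * Real.log ((t + 23940)/(t - 23940))
    + ((-205479783321879222788963760) * t^2 + (6048772365182827717172293437880000)) * Real.log ((t + 7980)/(t - 7980))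
    + (15652472853992248740061273193359375) * Real.log ((t + 13188)/(t - 13188))
    + (8768614531902043289422912869629952) * Real.log ((t + 19285)/(t - 19285))
    + (8244060167494876309156455493563408) * Real.log ((t + 21660)/(t - 21660))

theorem log_ratio (t u : ℝ) (ht : 0 < t) (hu : 0 < u) (hut : u < t) :
    Real.log ((t + u)/(t - u)) = Real.log (1 + u/t) - Real.log (1 - u/t) := by
  have h2 : 0 < 1 - u/t := by
    have : u / t < 1 := by rw [div_lt_one ht]; exact hut
    linarith
  have h3 : 0 < 1 + u/t := by positivity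
  rw [← Real.log_div h3.ne' h2.ne']
  congr 1
  field_simp

theorem F_eq (t : ℝ) (ht : 10^9 ≤ t) :
    F t = (68493261107293074262987920) * t^2 * (Real.log (1 + 23940/t) - Real.log (1 - 23940/t))
    + (-205479783321879222788963760) * t^2 * (Real.log (1 + 7980/t) - Real.log (1 - 7980/t))
    + (-36792507533893875749415156610206015) * (Real.log (1 + 23940/t) - Real.log (1 - 23940/t))
    + (6048772365182827717172293437880000) * (Real.log (1 + 7980/t) - Real.log (1 - 7980/t))
    + (15652472853992248740061273193359375) * (Real.log (1 + 13188/t) - Real.log (1 - 13188/t))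
    + (8768614531902043289422912869629952) * (Real.log (1 + 19285/t) - Real.log (1 - 19285/t))
    + (8244060167494876309156455493563408) * (Real.log (1 + 21660/t) - Real.log (1 - 21660/t)) := by
  have ht0 : 0 < t := lt_of_lt_of_le (by norm_num) ht
  unfold F
  rw [log_ratio t 23940 ht0 (by norm_num) (by linarith), log_ratio t 7980 ht0 (by norm_num) (by linarith), log_ratio t 13188 ht0 (by norm_num) (by linarith), log_ratio t 19285 ht0 (by norm_num) (by linarith), log_ratio t 21660 ht0 (by norm_num) (by linarith)]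
  ring

theorem term_bound (c l p e K : ℝ) (h : |l - p| ≤ e) (hc : |c| ≤ K) (hK : 0 ≤ K) :
    |c * l - c * p| ≤ K * e := by
  rw [← mul_sub, abs_mul]
  exact mul_le_mul hc h (abs_nonneg _) hK

theorem F_est (t : ℝ) (ht : 10^9 ≤ t) :
    |F t - 924831795166388571947806869404023802224923579207889998153764118706991923200000000000000 / t^13| ≤ 10^103 / t^15 := by
  have ht0 : 0 < t := lt_of_lt_of_le (by norm_num) ht
  have ht2 : (10:ℝ)^18 ≤ t^2 := by
    calc (10:ℝ)^18 = (10^9)^2 := by norm_num
      _ ≤ t^2 := by gcongr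
  have hid := main_identity t ht0.ne'
  have e0 := term_bound ((68493261107293074262987920) * t^2) _ _ _ (10^26 * t^2) (odd15 (23940/t) (by positivity) (by rw [div_le_iff₀ ht0]; linarith)) (by rw [abs_le]; constructor <;> linarith) (by positivity)
  have e1 := term_bound ((-205479783321879222788963760) * t^2) _ _ _ (10^27 * t^2) (odd15 (7980/t) (by positivity) (by rw [div_le_iff₀ ht0]; linarith)) (by rw [abs_le]; constructor <;> linarith) (by positivity)
  have e2 := term_bound ((-36792507533893875749415156610206015)) _ _ _ (10^35) (odd13 (23940/t) (by positivity) (by rw [div_le_iff₀ ht0]; linarith)) (by rw [abs_le]; constructor <;> norm_num) (by positivity)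
  have e3 := term_bound ((6048772365182827717172293437880000)) _ _ _ (10^35) (odd13 (7980/t) (by positivity) (by rw [div_le_iff₀ ht0]; linarith)) (by rw [abs_le]; constructor <;> norm_num) (by positivity)
  have e4 := term_bound ((15652472853992248740061273193359375)) _ _ _ (10^35) (odd13 (13188/t) (by positivity) (by rw [div_le_iff₀ ht0]; linarith)) (by rw [abs_le]; constructor <;> norm_num) (by positivity)
  have e5 := term_bound ((8768614531902043289422912869629952)) _ _ _ (10^35) (odd13 (19285/t) (by positivity) (by rw [div_le_iff₀ ht0]; linarith)) (by rw [abs_le]; constructor <;> norm_num) (by positivity)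
  have e6 := term_bound ((8244060167494876309156455493563408)) _ _ _ (10^35) (odd13 (21660/t) (by positivity) (by rw [div_le_iff₀ ht0]; linarith)) (by rw [abs_le]; constructor <;> norm_num) (by positivity)
  have f0 : 10^26 * t^2 * (4 * (23940/t)^17) ≤ (10^102) / t^15 := by
    have : 10^26 * t^2 * (4 * (23940/t)^17) = (4 * 10^26 * 23940^17) / t^15 := by field_simp
    rw [this]
    gcongr
    norm_num
  have f1 : 10^27 * t^2 * (4 * (7980/t)^17) ≤ (10^102) / t^15 := by
    have : 10^27 * t^2 * (4 * (7980/t)^17) = (4 * 10^27 * 7980^17) / t^15 := by field_simp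
    rw [this]
    gcongr
    norm_num
  have f2 : 10^35 * (4 * (23940/t)^15) ≤ (10^102) / t^15 := by
    have : 10^35 * (4 * ((23940:ℝ)/t)^15) = (4 * 10^35 * 23940^15) / t^15 := by field_simp
    rw [this]
    gcongr
    norm_num
  have f3 : 10^35 * (4 * (7980/t)^15) ≤ (10^102) / t^15 := by
    have : 10^35 * (4 * ((7980:ℝ)/t)^15) = (4 * 10^35 * 7980^15) / t^15 := by field_simp
    rw [this]
    gcongr
    norm_num
  have f4 : 10^35 * (4 * (13188/t)^15) ≤ (10^102) / t^15 := by
    have : 10^35 * (4 * ((13188:ℝ)/t)^15) = (4 * 10^35 * 13188^15) / t^15 := by field_simp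
    rw [this]
    gcongr
    norm_num
  have f5 : 10^35 * (4 * (19285/t)^15) ≤ (10^102) / t^15 := by
    have : 10^35 * (4 * ((19285:ℝ)/t)^15) = (4 * 10^35 * 19285^15) / t^15 := by field_simp
    rw [this]
    gcongr
    norm_num
  have f6 : 10^35 * (4 * (21660/t)^15) ≤ (10^102) / t^15 := by
    have : 10^35 * (4 * ((21660:ℝ)/t)^15) = (4 * 10^35 * 21660^15) / t^15 := by field_simp
    rw [this]
    gcongr
    norm_num
  have hfin : 7 * (10^102 / t^15) ≤ 10^103 / t^15 := by
    have h8 : 7 * ((10:ℝ)^102 / t^15) = (7 * 10^102) / t^15 := by ring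
    rw [h8]
    gcongr
    norm_num
  rw [F_eq t ht]
  rw [abs_le] at *
  constructor
  · linarith [e0.1, e1.1, e2.1, e3.1, e4.1, e5.1, e6.1]
  · linarith [e0.2, e1.2, e2.2, e3.2, e4.2, e5.2, e6.2]

theorem F_pos (t : ℝ) (ht : 10^9 ≤ t) : 0 < F t ∧ F t ≤ 10^88 / t^13 := by
  have ht0 : 0 < t := lt_of_lt_of_le (by norm_num) ht
  have ht2 : (10:ℝ)^18 ≤ t^2 := by
    calc (10:ℝ)^18 = (10^9)^2 := by norm_num
      _ ≤ t^2 := by gcongr
  have h := F_est t ht
  have h2 : (10:ℝ)^103 / t^15 ≤ 10^85 / t^13 := by
    rw [div_le_div_iff₀ (by positivity) (by positivity)]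
    have : (10:ℝ)^85 * t^15 = (10^85 * t^2) * t^13 := by ring
    rw [this]
    gcongr
    linarith
  rw [abs_le] at h
  constructor
  · have h3 : (10:ℝ)^85 / t^13 < 924831795166388571947806869404023802224923579207889998153764118706991923200000000000000 / t^13 := by
      gcongr
      norm_num
    linarith [h.1]
  · have h3 : (924831795166388571947806869404023802224923579207889998153764118706991923200000000000000:ℝ) / t^13 + 10^85 / t^13 ≤ 10^88 / t^13 := by
      rw [← add_div]
      gcongr
      norm_num
    linarith [h.2]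

end Pool.Agent.Y823.LR
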